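import Pool.Agent.Lib.MP_172a45_an.F.H69.Def

set_option autoImplicit false
set_option maxRecDepth 100000

namespace Pool.Agent.Lib.MP_172a45_an.F.H69.C

/-- cells: N/t0 in [7, 7.25], y in [0, 1.25] -/
def U0_0 : Tt :=
  .B 50000 (.S 2231000 997000 110) (.B 250000 (.B 111800 (.B 74700 (.B 61100 (.T 13 80000 61000
  997000 1683) (.T 16 100000 75000 997000 1494)) (.B 91300 (.T 19 100000 91000 996000 1657) (.T
  22 120000 112000 995000 2070))) (.B 167100 (.B 136600 (.T 27 160000 137000 994000 1830) (.T 31
  180000 167000 993000 2372)) (.B 204300 (.T 37 200000 204000 991000 2338) (.B 225900 (.T 46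
  260000 226000 990000 1002) (.T 49 280000 250000 989000 1118))))) (.B 559000 (.B 373800 (.B
  305600 (.B 276400 (.T 53 300000 276000 988000 1139) (.T 57 320000 306000 987000 1193)) (.B
  337900 (.T 61 340000 338000 986000 1317) (.T 65 360000 374000 984000 1482))) (.B 457100 (.B
  413300 (.T 69 380000 413000 983000 1661) (.T 73 420000 457000 981000 1852)) (.B 505400 (.T 77
  440000 505000 979000 2045) (.T 82 460000 559000 977000 2187)))) (.B 835900 (.B 683500 (.B
  618100 (.T 86 480000 618000 974000 2506) (.B 649900 (.T 93 520000 650000 973000 1859) (.T 96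
  540000 684000 972000 1863))) (.B 755800 (.B 718700 (.T 98 560000 719000 970000 1969) (.T 100
  560000 756000 969000 2066)) (.B 794800 (.T 102 580000 795000 967000 2279) (.T 105 600000 836000
  965000 2279)))) (.B 1022100 (.B 924300 (.B 878900 (.T 107 600000 879000 964000 2404) (.T 109
  620000 924000 962000 2524)) (.B 971900 (.B 947800 (.T 113 640000 948000 961000 2187) (.T 114
  640000 972000 960000 2244)) (.B 996600 (.T 115 640000 997000 959000 2299) (.T 116 660000
  1022000 958000 2348)))) (.B 1130300 (.B 1074800 (.B 1048100 (.T 117 660000 1048000 957000 2391)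
  (.T 118 660000 1075000 956000 2431)) (.B 1102200 (.T 119 660000 1102000 954000 2474) (.T 120
  680000 1130000 953000 2503))) (.B 1188600 (.B 1159000 (.T 122 680000 1159000 952000 2420) (.T
  123 700000 1189000 951000 2441)) (.B 1218900 (.T 124 700000 1219000 949000 2465) (.T 125 700000
  1250000 948000 2477))))))))

theorem d0_0 : chkT 7000000 7250000 U0_0 0 1250000 = true := by
  decide +kernel

end Pool.Agent.Lib.MP_172a45_an.F.H69.C
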