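import Pool.Agent.Lib.MP_172a45_an.F.H69.Def

set_option autoImplicit false
set_option maxRecDepth 100000

namespace Pool.Agent.Lib.MP_172a45_an.F.H69.C

/-- cells: N/t0 in [7, 7.25], y in [1.25, 1.75] -/
def U0_1 : Tt :=
  .B 1479000 (.B 1359600 (.B 1303600 (.B 1276500 (.T 126 700000 1277000 947000 2468) (.T 127
  720000 1304000 946000 2453)) (.B 1331300 (.T 128 720000 1331000 945000 2436) (.B 1345300 (.T
  129 720000 1345000 944000 2382) (.T 130 740000 1360000 944000 2321)))) (.B 1418000 (.B 1388400
  (.B 1373900 (.T 130 740000 1374000 943000 2361) (.T 131 740000 1388000 942000 2304)) (.B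
  1403100 (.T 131 740000 1403000 942000 2335) (.B 1410500 (.T 132 740000 1411000 941000 2265) (.T
  132 740000 1418000 941000 2280)))) (.B 1448100 (.B 1432900 (.T 132 740000 1433000 940000 2316)
  (.T 132 740000 1448000 940000 2342)) (.B 1463400 (.T 133 740000 1463000 939000 2284) (.B
  1471100 (.T 133 740000 1471000 939000 2296) (.T 134 760000 1479000 938000 2226)))))) (.B
  1608800 (.B 1542500 (.B 1510400 (.B 1494600 (.B 1486700 (.T 134 760000 1487000 938000 2237) (.T
  134 760000 1495000 938000 2248)) (.T 134 760000 1510000 937000 2276)) (.B 1526300 (.B 1518300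
  (.T 135 760000 1518000 937000 2199) (.T 135 760000 1526000 936000 2215)) (.T 135 760000 1543000
  936000 2233))) (.B 1575300 (.B 1558800 (.B 1550600 (.T 135 760000 1551000 935000 2250) (.T 136
  760000 1559000 935000 2172)) (.B 1567000 (.T 136 760000 1567000 935000 2180) (.T 136 760000
  1575000 934000 2195))) (.B 1591900 (.T 136 760000 1592000 934000 2208) (.B 1600300 (.T 137
  780000 1600000 933000 2139) (.T 137 780000 1609000 933000 2145))))) (.B 1677900 (.B 1642900 (.B
  1625700 (.T 137 780000 1626000 932000 2164) (.B 1634200 (.T 137 780000 1634000 932000 2168) (.T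
  138 780000 1643000 931000 2097))) (.B 1660300 (.B 1651500 (.T 138 780000 1652000 931000 2100)
  (.T 138 780000 1660000 931000 2104)) (.T 138 780000 1678000 930000 2118))) (.B 1713500 (.B
  1695600 (.B 1686700 (.T 139 780000 1687000 930000 2041) (.T 139 780000 1696000 929000 2050))
  (.B 1704500 (.T 139 780000 1705000 929000 2053) (.T 139 780000 1714000 928000 2062))) (.B
  1731600 (.T 139 780000 1732000 928000 2063) (.T 139 780000 1738000 927000 2070)))))

theorem d0_1 : chkT 7000000 7250000 U0_1 1250000 1750000 = true := by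
  decide +kernel

end Pool.Agent.Lib.MP_172a45_an.F.H69.C
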