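import Pool.Agent.Lib.MP_172a45_an.F.H69.Def

set_option autoImplicit false
set_option maxRecDepth 100000

namespace Pool.Agent.Lib.MP_172a45_an.F.H69.C

/-- cells: N/t0 in [10, 11], y in [0, 6] -/
def U6_0 : Tt :=
  .B 50000 (.S 3440000 997000 0) (.B 547700 (.B 165400 (.B 90900 (.B 67400 (.T 20 60000 67000
  997000 0) (.T 27 80000 91000 996000 0)) (.B 122600 (.T 34 120000 123000 995000 30) (.T 44
  140000 165000 993000 125))) (.B 300900 (.B 223000 (.T 55 180000 223000 991000 416) (.T 68
  220000 301000 987000 697)) (.B 405900 (.T 82 280000 406000 983000 1034) (.T 96 320000 548000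
  977000 1769)))) (.B 1812700 (.B 996400 (.B 738700 (.B 636000 (.T 119 400000 636000 974000 831)
  (.T 127 420000 739000 970000 1037)) (.B 857900 (.T 135 440000 858000 965000 1301) (.T 142
  460000 996000 959000 1746))) (.B 1343900 (.B 1157100 (.T 150 500000 1157000 952000 1964) (.T
  156 520000 1344000 944000 2291)) (.B 1560700 (.T 163 540000 1561000 935000 2321) (.T 169 560000
  1813000 924000 2166)))) (.B 3297900 (.B 2445000 (.B 2105200 (.B 1953400 (.T 181 600000 1917000
  918000 1590) (.T 184 600000 1953000 911000 1486)) (.B 2268700 (.T 187 620000 2105000 904000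
  1349) (.T 189 620000 2269000 896000 1155))) (.B 2839600 (.B 2634900 (.T 191 640000 2445000
  888000 966) (.T 194 640000 2635000 879000 815)) (.T 188 620000 2840000 858000 759))) (.B
  4448300 (.B 3830100 (.T 191 640000 3298000 832000 349) (.T 195 640000 3830000 802000 0)) (.B
  5166200 (.B 4793800 (.T 207 680000 4448000 785000 0) (.T 208 680000 4794000 765000 0)) (.B
  5567500 (.T 209 700000 5166000 744000 0) (.T 211 700000 5568000 721000 0)))))))

theorem d6_0 : chkT 10000000 11000000 U6_0 0 6000000 = true := by
  decide +kernel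

end Pool.Agent.Lib.MP_172a45_an.F.H69.C
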