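import Pool.Agent.Lib.MP_172a45_an.F.H69.Def

set_option autoImplicit false
set_option maxRecDepth 100000

namespace Pool.Agent.Lib.MP_172a45_an.F.H69.C

/-- cells: N/t0 in [11, 12.5], y in [0, 6] -/
def U7_0 : Tt :=
  .B 50000 (.S 3826000 997000 0) (.B 547700 (.B 165400 (.B 90900 (.T 20 60000 91000 996000 2220)
  (.B 122600 (.T 39 120000 123000 995000 0) (.T 49 140000 165000 993000 0))) (.B 300900 (.B
  223000 (.T 61 180000 223000 991000 0) (.T 75 220000 301000 987000 195)) (.B 405900 (.T 90
  260000 406000 983000 643) (.T 106 300000 548000 977000 1052)))) (.B 1812700 (.B 996400 (.B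
  738700 (.T 121 340000 739000 970000 1918) (.B 857900 (.T 146 420000 858000 965000 995) (.T 154
  440000 996000 959000 1291))) (.B 1343900 (.B 1157100 (.T 161 460000 1157000 952000 1678) (.T
  168 480000 1344000 944000 1919)) (.B 1560700 (.T 175 500000 1561000 935000 2014) (.T 181 520000
  1813000 924000 1958)))) (.B 3297900 (.B 2445000 (.B 2105200 (.T 187 540000 1923000 911000 1748)
  (.T 192 540000 2105000 896000 1554)) (.B 2839600 (.T 196 560000 2445000 879000 1185) (.T 201
  560000 2840000 858000 729))) (.B 4448300 (.B 3830100 (.T 204 580000 3298000 832000 328) (.T 208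
  580000 3830000 802000 0)) (.B 5166200 (.B 4793800 (.T 220 620000 4448000 785000 0) (.T 221
  620000 4794000 765000 0)) (.B 5567500 (.T 223 640000 5166000 744000 0) (.B 5779700 (.T 228
  640000 5568000 733000 0) (.T 229 640000 5780000 721000 0))))))))

theorem d7_0 : chkT 11000000 12500000 U7_0 0 6000000 = true := by
  decide +kernel

end Pool.Agent.Lib.MP_172a45_an.F.H69.C
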