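import Pool.Agent.Lib.MP_172a45_an.F.H69.Def

set_option autoImplicit false
set_option maxRecDepth 100000

namespace Pool.Agent.Lib.MP_172a45_an.F.H69.C

/-- cells: N/t0 in [12.5, 14], y in [0, 6] -/
def U8_0 : Tt :=
  .B 50000 (.S 4390000 997000 0) (.B 547700 (.B 165400 (.B 90900 (.T 24 60000 91000 996000 655)
  (.T 40 100000 165000 993000 955)) (.B 300900 (.T 62 160000 301000 987000 1919) (.B 405900 (.T
  102 260000 406000 983000 0) (.T 119 300000 548000 977000 505)))) (.B 1812700 (.B 996400 (.B
  738700 (.T 136 340000 739000 970000 1001) (.T 151 380000 996000 959000 1874)) (.B 1343900 (.B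
  1157100 (.T 177 440000 1157000 952000 1044) (.T 185 460000 1344000 944000 1311)) (.B 1560700
  (.T 192 480000 1561000 935000 1500) (.T 198 500000 1813000 924000 1542)))) (.B 3297900 (.B
  2445000 (.B 2105200 (.T 204 500000 1999000 911000 1385) (.T 209 520000 2105000 896000 1225))
  (.B 2839600 (.T 214 540000 2445000 879000 902) (.T 218 540000 2840000 858000 633))) (.B 4448300
  (.B 3830100 (.T 222 560000 3298000 832000 237) (.T 225 560000 3830000 802000 0)) (.B 5166200
  (.B 4793800 (.T 237 580000 4448000 785000 0) (.T 239 600000 4794000 765000 0)) (.B 5567500 (.T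
  240 600000 5166000 744000 0) (.T 242 600000 5568000 721000 0)))))))

theorem d8_0 : chkT 12500000 14000000 U8_0 0 6000000 = true := by
  decide +kernel

/-- cells: N/t0 in [14, 16], y in [0, 6] -/
def U9_0 : Tt :=
  .B 50000 (.S 4939000 997000 0) (.B 547700 (.B 165400 (.B 90900 (.T 28 60000 91000 996000 0) (.T
  46 100000 165000 993000 131)) (.B 300900 (.T 71 160000 301000 987000 820) (.B 405900 (.T 113
  240000 406000 983000 0) (.T 131 280000 548000 977000 27)))) (.B 1812700 (.B 996400 (.B 738700
  (.T 149 320000 739000 970000 640) (.T 165 360000 996000 959000 1257)) (.B 1343900 (.T 180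
  380000 1344000 944000 2012) (.T 193 420000 1813000 924000 2364))) (.B 3297900 (.B 2445000 (.B
  2105200 (.T 219 460000 2054000 911000 1166) (.T 224 480000 2105000 896000 981)) (.B 2839600 (.T
  229 480000 2445000 879000 830) (.T 234 500000 2840000 858000 564))) (.B 4448300 (.B 3830100 (.T
  237 500000 3298000 832000 192) (.T 241 520000 3830000 802000 0)) (.B 5166200 (.B 4793800 (.T
  253 540000 4448000 785000 0) (.T 254 540000 4794000 765000 0)) (.B 5567500 (.T 256 540000
  5166000 744000 0) (.T 257 540000 5568000 721000 0)))))))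

theorem d9_0 : chkT 14000000 16000000 U9_0 0 6000000 = true := by
  decide +kernel

end Pool.Agent.Lib.MP_172a45_an.F.H69.C
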