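import Pool.Agent.Lib.MP_172a45_an.F.H69.Def

set_option autoImplicit false
set_option maxRecDepth 100000

namespace Pool.Agent.Lib.MP_172a45_an.F.H69.C

/-- cells: N/t0 in [16, 19], y in [0, 6] -/
def U10_0 : Tt :=
  .B 50000 (.S 5647000 997000 0) (.B 547700 (.B 165400 (.B 90900 (.T 33 60000 91000 996000 0) (.T
  54 100000 165000 993000 0)) (.B 300900 (.T 81 140000 301000 987000 72) (.T 113 200000 548000
  977000 1213))) (.B 1812700 (.B 996400 (.B 738700 (.T 165 280000 739000 970000 194) (.T 182
  320000 996000 959000 833)) (.B 1343900 (.T 197 340000 1344000 944000 1537) (.T 211 380000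
  1813000 924000 1838))) (.B 3297900 (.B 2445000 (.T 222 380000 2036000 896000 1547) (.B 2839600
  (.T 247 440000 2445000 879000 751) (.T 252 440000 2840000 858000 502))) (.B 4448300 (.B 3830100
  (.T 256 440000 3298000 832000 110) (.T 259 460000 3830000 802000 0)) (.B 5166200 (.B 4793800
  (.T 271 480000 4448000 785000 0) (.T 273 480000 4794000 765000 0)) (.B 5567500 (.T 274 480000
  5166000 744000 0) (.T 276 480000 5568000 721000 0)))))))

theorem d10_0 : chkT 16000000 19000000 U10_0 0 6000000 = true := by
  decide +kernel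

/-- cells: N/t0 in [19, 22], y in [0, 6] -/
def U11_0 : Tt :=
  .B 50000 (.S 6665000 997000 0) (.B 547700 (.B 165400 (.B 90900 (.T 40 60000 91000 996000 0) (.T
  65 100000 165000 993000 0)) (.B 300900 (.T 96 140000 301000 987000 0) (.T 132 200000 548000
  977000 312))) (.B 1812700 (.B 996400 (.T 166 240000 996000 959000 2354) (.B 1343900 (.T 220
  320000 1344000 944000 868) (.T 234 340000 1813000 924000 1222))) (.B 3297900 (.B 2445000 (.T
  245 360000 2128000 896000 1034) (.T 255 380000 2445000 858000 777)) (.B 4448300 (.B 3830100 (.T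
  279 420000 3298000 832000 0) (.T 283 420000 3830000 802000 0)) (.B 5166200 (.T 286 420000
  4448000 765000 0) (.B 5567500 (.T 298 440000 5166000 744000 0) (.T 299 440000 5568000 721000
  0)))))))

theorem d11_0 : chkT 19000000 22000000 U11_0 0 6000000 = true := by
  decide +kernel

end Pool.Agent.Lib.MP_172a45_an.F.H69.C
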