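import Pool.Agent.Lib.MP_172a45_an.F.H69.Def

set_option autoImplicit false
set_option maxRecDepth 100000

namespace Pool.Agent.Lib.MP_172a45_an.F.H69.C

/-- cells: N/t0 in [22, 26], y in [0, 6] -/
def U12_0 : Tt :=
  .B 50000 (.S 7638000 997000 0) (.B 547700 (.B 165400 (.B 90900 (.T 47 60000 91000 996000 0) (.T
  75 100000 165000 993000 0)) (.B 300900 (.T 110 140000 301000 987000 0) (.T 148 180000 548000
  977000 0))) (.B 1812700 (.B 996400 (.T 184 220000 996000 959000 1187) (.B 1343900 (.T 239
  300000 1344000 944000 596) (.T 253 320000 1813000 924000 948))) (.B 3297900 (.B 2445000 (.T 265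
  340000 2196000 896000 823) (.T 275 340000 2445000 858000 652)) (.B 4448300 (.B 3830100 (.T 299
  380000 3298000 832000 0) (.T 303 380000 3830000 802000 0)) (.B 5166200 (.T 306 380000 4448000
  765000 0) (.B 5567500 (.T 317 400000 5166000 744000 0) (.T 319 400000 5568000 721000 0)))))))

theorem d12_0 : chkT 22000000 26000000 U12_0 0 6000000 = true := by
  decide +kernel

/-- cells: N/t0 in [26, 32], y in [0, 6] -/
def U13_0 : Tt :=
  .B 50000 (.S 8873000 997000 0) (.B 547700 (.B 165400 (.T 47 40000 165000 993000 381) (.B 300900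
  (.T 126 120000 301000 987000 0) (.T 168 160000 548000 977000 0))) (.B 1812700 (.B 996400 (.T
  205 200000 996000 959000 696) (.B 1343900 (.T 261 260000 1344000 944000 276) (.T 275 280000
  1813000 924000 751))) (.B 3297900 (.B 2445000 (.T 287 280000 2264000 896000 718) (.T 297 300000
  2445000 858000 554)) (.B 4448300 (.B 3830100 (.T 321 320000 3298000 832000 0) (.T 325 320000
  3830000 802000 0)) (.B 5166200 (.T 328 320000 4448000 765000 0) (.B 5567500 (.T 340 340000
  5166000 744000 0) (.T 341 340000 5568000 721000 0)))))))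

theorem d13_0 : chkT 26000000 32000000 U13_0 0 6000000 = true := by
  decide +kernel

/-- cells: N/t0 in [32, 40], y in [0, 6] -/
def U14_0 : Tt :=
  .B 50000 (.S 10613000 997000 0) (.B 547700 (.B 165400 (.T 60 40000 165000 993000 0) (.T 124
  100000 548000 977000 1888)) (.B 1812700 (.B 996400 (.T 232 180000 996000 959000 0) (.T 263
  200000 1813000 924000 1823)) (.B 3297900 (.T 285 220000 2225000 858000 1258) (.B 4448300 (.T
  333 260000 3298000 802000 0) (.B 5166200 (.T 356 280000 4448000 765000 0) (.B 5567500 (.T 368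
  280000 5166000 744000 0) (.T 369 300000 5568000 721000 0)))))))

theorem d14_0 : chkT 32000000 40000000 U14_0 0 6000000 = true := by
  decide +kernel

end Pool.Agent.Lib.MP_172a45_an.F.H69.C
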