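import Pool.Agent.Lib.MP_172a45_an.F.H69.Def

set_option autoImplicit false
set_option maxRecDepth 100000

namespace Pool.Agent.Lib.MP_172a45_an.F.H69.C

/-- cells: N/t0 in [40, 60], y in [0, 6] -/
def U15_0 : Tt :=
  .B 50000 (.S 12764000 997000 0) (.B 547700 (.B 165400 (.T 75 40000 165000 993000 0) (.T 148
  80000 548000 977000 123)) (.B 1812700 (.B 996400 (.T 261 140000 996000 959000 0) (.B 1343900
  (.T 318 160000 1344000 944000 0) (.T 333 180000 1813000 924000 128))) (.B 3297900 (.B 2445000
  (.T 345 180000 2423000 896000 337) (.T 355 180000 2461000 858000 168)) (.B 4448300 (.T 363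
  180000 3298000 802000 0) (.B 5166200 (.T 386 200000 4448000 765000 0) (.B 5567500 (.T 398
  200000 5166000 744000 0) (.T 399 200000 5568000 721000 0)))))))

theorem d15_0 : chkT 40000000 60000000 U15_0 0 6000000 = true := by
  decide +kernel

/-- cells: N/t0 in [60, oo], y in [0, 6] -/
def U16_0 : Tt :=
  .B 50000 (.S 17521000 997000 0) (.B 547700 (.B 165400 (.T 108 0 165000 993000 0) (.T 196 0
  548000 977000 0)) (.B 1812700 (.B 996400 (.M 314 314 996000 959000 0) (.M 347 347 1813000
  924000 0)) (.B 3297900 (.B 2445000 (.M 399 399 2445000 896000 0) (.M 409 409 2658000 858000 0))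
  (.B 4448300 (.M 417 417 3298000 802000 0) (.B 5166200 (.M 440 440 4448000 765000 0) (.B 5567500
  (.M 451 451 5166000 744000 0) (.M 453 453 5568000 721000 0)))))))

theorem d16_0 : chkT 60000000 0 U16_0 0 6000000 = true := by
  decide +kernel

end Pool.Agent.Lib.MP_172a45_an.F.H69.C
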