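import Pool.Agent.Lib.MP_172a45_an.F.H69.Def

set_option autoImplicit false
set_option maxRecDepth 100000

namespace Pool.Agent.Lib.MP_172a45_an.F.H69.C

/-- cells: N/t0 in [7, 7.25], y in [1.75, 6] -/
def U0_2 : Tt :=
  .B 3240300 (.B 2381200 (.B 2041300 (.B 1890000 (.B 1818600 (.B 1783900 (.B 1766800 (.T 140
  780000 1750000 926000 1999) (.T 140 780000 1767000 925000 2004)) (.B 1801100 (.T 140 780000
  1784000 925000 2002) (.T 141 800000 1801000 924000 1891))) (.B 1853900 (.B 1836100 (.T 141
  800000 1819000 923000 1891) (.T 141 800000 1836000 922000 1890)) (.T 141 800000 1854000 921000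
  1888))) (.B 1964100 (.B 1926600 (.B 1908200 (.T 142 800000 1890000 920000 1835) (.T 143 800000
  1908000 919000 1786)) (.T 142 800000 1927000 918000 1824)) (.B 2002300 (.T 143 800000 1964000
  916000 1769) (.T 143 800000 2002000 914000 1751)))) (.B 2204700 (.B 2121400 (.B 2080900 (.T 144
  820000 2041000 912000 1690) (.T 145 820000 2081000 911000 1623)) (.B 2162600 (.T 145 820000
  2121000 909000 1596) (.T 146 820000 2163000 907000 1526))) (.B 2291200 (.T 144 820000 2205000
  903000 1574) (.T 146 820000 2291000 899000 1416)))) (.B 2777700 (.B 2571800 (.B 2474600 (.T 147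
  820000 2381000 895000 1284) (.T 148 840000 2475000 891000 1138)) (.T 145 820000 2572000 881000
  1127)) (.B 3000000 (.T 147 820000 2778000 871000 848) (.T 149 840000 3000000 860000 638)))) (.B
  4409200 (.B 3779800 (.B 3499600 (.T 151 840000 3240000 848000 398) (.T 152 860000 3500000
  835000 129)) (.B 4082300 (.T 154 860000 3780000 820000 0) (.T 155 880000 4082000 804000 0)))
  (.B 5143400 (.B 4762100 (.T 157 880000 4409000 786000 0) (.T 158 880000 4762000 767000 0)) (.B
  5555200 (.T 159 900000 5143000 745000 0) (.T 161 900000 5555000 721000 0))))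

theorem d0_2 : chkT 7000000 7250000 U0_2 1750000 6000000 = true := by
  decide +kernel

end Pool.Agent.Lib.MP_172a45_an.F.H69.C
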