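import Pool.Agent.Lib.MP_172a45_an.F.H69.Def

set_option autoImplicit false
set_option maxRecDepth 100000

namespace Pool.Agent.Lib.MP_172a45_an.F.H69.C

/-- cells: N/t0 in [7.25, 7.5], y in [0, 1.5] -/
def U1_0 : Tt :=
  .B 50000 (.S 2335000 997000 0) (.B 273800 (.B 117000 (.B 76400 (.B 61800 (.T 14 80000 62000
  997000 1144) (.T 16 80000 76000 996000 1793)) (.B 94500 (.T 20 100000 95000 996000 1528) (.T 24
  120000 117000 995000 1680))) (.B 178900 (.B 144600 (.T 29 160000 145000 994000 1699) (.T 34
  180000 179000 992000 2009)) (.B 221300 (.T 41 220000 221000 991000 1967) (.T 47 260000 274000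
  988000 2622)))) (.B 640800 (.B 418800 (.B 338600 (.B 304400 (.T 59 320000 304000 987000 1036)
  (.T 63 340000 339000 986000 1139)) (.B 376500 (.T 67 360000 377000 984000 1331) (.T 72 380000
  419000 983000 1430))) (.B 518000 (.B 465700 (.T 76 400000 466000 981000 1698) (.T 81 440000
  518000 979000 1831)) (.B 576100 (.T 86 460000 576000 976000 1975) (.T 91 480000 641000 974000
  2196)))) (.B 980400 (.B 792600 (.B 712600 (.T 95 520000 713000 971000 2583) (.B 751500 (.T 103
  560000 752000 969000 1883) (.T 106 560000 793000 967000 1914))) (.B 881500 (.B 835800 (.T 108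
  580000 836000 965000 2028) (.T 111 600000 882000 964000 2045)) (.B 929600 (.T 113 600000 930000
  962000 2264) (.T 115 620000 980000 959000 2412)))) (.B 1212600 (.B 1090300 (.B 1033800 (.T 118
  640000 1034000 957000 2411) (.T 120 640000 1090000 955000 2513)) (.B 1149800 (.B 1119600 (.T
  124 660000 1120000 954000 2217) (.T 125 680000 1150000 952000 2270)) (.B 1180700 (.T 126 680000
  1181000 951000 2306) (.T 127 680000 1213000 950000 2339)))) (.B 1348600 (.B 1278700 (.B 1245200
  (.T 129 700000 1245000 948000 2269) (.T 130 700000 1279000 947000 2290)) (.B 1313100 (.T 131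
  700000 1313000 946000 2303) (.T 132 700000 1349000 944000 2319))) (.B 1422200 (.B 1384900 (.T
  133 720000 1385000 942000 2326) (.T 134 720000 1422000 941000 2320)) (.B 1460500 (.T 135 720000
  1461000 939000 2312) (.T 136 740000 1500000 938000 2293))))))))

theorem d1_0 : chkT 7250000 7500000 U1_0 0 1500000 = true := by
  decide +kernel

end Pool.Agent.Lib.MP_172a45_an.F.H69.C
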