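import Pool.Agent.Lib.MP_172a45_an.F.H69.Def

set_option autoImplicit false
set_option maxRecDepth 100000

namespace Pool.Agent.Lib.MP_172a45_an.F.H69.C

/-- cells: N/t0 in [7.25, 7.5], y in [1.5, 6] -/
def U1_1 : Tt :=
  .B 3000000 (.B 2121300 (.B 1783800 (.B 1635700 (.B 1566300 (.B 1532700 (.T 137 740000 1533000
  936000 2262) (.T 138 740000 1566000 935000 2220)) (.B 1600600 (.T 139 740000 1601000 933000
  2182) (.T 140 760000 1636000 932000 2131))) (.B 1708100 (.B 1671500 (.T 141 760000 1672000
  930000 2083) (.T 141 760000 1708000 929000 2101)) (.B 1745500 (.T 142 760000 1746000 927000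
  2042) (.T 143 760000 1759000 925000 1980)))) (.B 1945200 (.B 1862700 (.B 1822800 (.T 144 780000
  1784000 924000 1877) (.T 144 780000 1823000 922000 1878)) (.B 1903500 (.T 145 780000 1863000
  920000 1831) (.T 146 780000 1904000 918000 1780))) (.B 2031300 (.B 1987700 (.T 147 800000
  1945000 917000 1723) (.T 147 800000 1988000 915000 1708)) (.T 146 780000 2031000 911000
  1733)))) (.B 2522600 (.B 2313200 (.B 2215100 (.T 147 800000 2121000 907000 1636) (.T 149 800000
  2215000 902000 1487)) (.B 2415600 (.T 150 800000 2313000 898000 1358) (.T 151 820000 2416000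
  893000 1214))) (.B 2750900 (.T 148 800000 2523000 883000 1198) (.T 150 800000 2751000 871000
  872)))) (.B 4242600 (.B 3567600 (.B 3271500 (.T 152 820000 3000000 859000 643) (.T 154 820000
  3272000 845000 348)) (.B 3890400 (.T 156 840000 3568000 829000 62) (.T 158 840000 3890000
  812000 0))) (.B 5045300 (.B 4626500 (.T 160 860000 4243000 793000 0) (.T 161 860000 4627000
  772000 0)) (.B 5501900 (.T 163 880000 5045000 748000 0) (.B 5745500 (.T 170 920000 5502000
  735000 0) (.T 170 920000 5746000 721000 0)))))

theorem d1_1 : chkT 7250000 7500000 U1_1 1500000 6000000 = true := by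
  decide +kernel

end Pool.Agent.Lib.MP_172a45_an.F.H69.C
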