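import Pool.Agent.Lib.MP_172a45_an.F.H69.Def

set_option autoImplicit false
set_option maxRecDepth 100000

namespace Pool.Agent.Lib.MP_172a45_an.F.H69.C

/-- cells: N/t0 in [7.5, 8], y in [0, 1.75] -/
def U2_0 : Tt :=
  .B 50000 (.S 2438000 997000 0) (.B 295800 (.B 121600 (.B 77900 (.B 62400 (.T 14 60000 62000
  997000 1312) (.T 17 80000 78000 996000 1475)) (.B 97300 (.T 21 100000 97000 996000 1434) (.T 26
  120000 122000 995000 1348))) (.B 189600 (.B 151800 (.T 31 160000 152000 993000 1616) (.T 37
  180000 190000 992000 1825)) (.B 236800 (.T 44 220000 237000 990000 2015) (.T 52 260000 296000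
  988000 2316)))) (.B 719400 (.B 461300 (.B 369300 (.B 330500 (.T 64 320000 331000 986000 1054)
  (.T 69 340000 369000 985000 1121)) (.B 412700 (.T 74 360000 413000 983000 1240) (.T 79 380000
  461000 981000 1438))) (.B 576000 (.B 515400 (.T 84 420000 515000 979000 1649) (.T 89 440000
  576000 976000 1864)) (.B 643700 (.T 94 460000 644000 973000 2069) (.T 99 480000 719000 970000
  2445)))) (.B 1122000 (.B 898400 (.B 803900 (.B 760400 (.T 107 520000 760000 969000 1828) (.T
  110 540000 804000 967000 1885)) (.B 849800 (.T 112 560000 850000 965000 2023) (.T 115 560000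
  898000 963000 2143))) (.B 1003900 (.B 949600 (.T 117 580000 950000 961000 2332) (.T 120 600000
  1004000 959000 2376)) (.B 1061300 (.T 122 600000 1061000 956000 2527) (.T 125 620000 1122000
  954000 2534)))) (.B 1401200 (.B 1253800 (.B 1186000 (.B 1153500 (.T 129 640000 1154000 952000
  2264) (.T 130 640000 1186000 951000 2316)) (.B 1219400 (.T 132 660000 1219000 949000 2264) (.T
  133 660000 1254000 948000 2302))) (.B 1325400 (.B 1289100 (.T 134 660000 1289000 947000 2333)
  (.T 135 660000 1325000 945000 2363)) (.B 1362700 (.T 136 680000 1363000 943000 2386) (.T 137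
  680000 1401000 942000 2393)))) (.B 1565900 (.B 1481200 (.B 1440600 (.B 1420700 (.T 140 700000
  1421000 941000 2169) (.T 140 700000 1441000 940000 2218)) (.T 140 700000 1481000 938000 2308))
  (.B 1522900 (.T 141 700000 1523000 937000 2292) (.T 142 700000 1566000 935000 2275))) (.B
  1655300 (.B 1609900 (.B 1587700 (.T 144 720000 1588000 934000 2138) (.T 145 720000 1610000
  933000 2084)) (.B 1632400 (.T 145 720000 1632000 932000 2111) (.T 146 720000 1655000 931000
  2053))) (.B 1701900 (.B 1678400 (.T 146 720000 1678000 930000 2073) (.T 147 720000 1702000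
  929000 2014)) (.T 146 720000 1750000 927000 2114))))))))

theorem d2_0 : chkT 7500000 8000000 U2_0 0 1750000 = true := by
  decide +kernel

end Pool.Agent.Lib.MP_172a45_an.F.H69.C
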