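import Pool.Agent.Lib.MP_172a45_an.F.H69.Def

set_option autoImplicit false
set_option maxRecDepth 100000

namespace Pool.Agent.Lib.MP_172a45_an.F.H69.C

/-- cells: N/t0 in [7.5, 8], y in [1.75, 6] -/
def U2_1 : Tt :=
  .B 3240300 (.B 2381200 (.B 2041300 (.B 1890000 (.B 1818600 (.B 1783900 (.T 148 740000 1777000
  925000 1980) (.T 148 740000 1784000 924000 1985)) (.B 1853900 (.T 149 740000 1819000 922000
  1879) (.T 150 740000 1854000 921000 1832))) (.B 1964100 (.B 1926600 (.T 150 740000 1890000
  919000 1829) (.T 151 740000 1927000 918000 1777)) (.B 2002300 (.T 152 740000 1964000 916000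
  1726) (.T 152 740000 2002000 914000 1713)))) (.B 2204700 (.B 2121400 (.T 151 740000 2041000
  911000 1737) (.T 152 740000 2121000 907000 1650)) (.B 2291200 (.T 154 760000 2205000 903000
  1515) (.T 155 760000 2291000 899000 1402)))) (.B 2777700 (.B 2571800 (.B 2474600 (.T 156 760000
  2381000 895000 1276) (.T 157 780000 2475000 891000 1135)) (.T 154 760000 2572000 881000 1125))
  (.B 3000000 (.T 156 760000 2778000 871000 853) (.T 158 780000 3000000 860000 647)))) (.B
  4409200 (.B 3779800 (.B 3499600 (.T 160 780000 3240000 848000 410) (.T 162 800000 3500000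
  835000 131)) (.B 4082300 (.T 163 800000 3780000 820000 0) (.T 165 820000 4082000 804000 0)))
  (.B 5143400 (.B 4762100 (.T 166 820000 4409000 786000 0) (.T 168 820000 4762000 767000 0)) (.B
  5555200 (.T 169 840000 5143000 745000 0) (.B 5773300 (.T 175 860000 5555000 733000 0) (.T 176
  860000 5773000 721000 0)))))

theorem d2_1 : chkT 7500000 8000000 U2_1 1750000 6000000 = true := by
  decide +kernel

end Pool.Agent.Lib.MP_172a45_an.F.H69.C
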