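import Pool.Agent.Lib.MP_172a45_an.F.H69.Def

set_option autoImplicit false
set_option maxRecDepth 100000

namespace Pool.Agent.Lib.MP_172a45_an.F.H69.C

/-- cells: N/t0 in [8, 8.5], y in [0, 4.5] -/
def U3_0 : Tt :=
  .B 50000 (.S 2643000 997000 0) (.B 474300 (.B 153900 (.B 87700 (.B 66200 (.T 15 60000 66000
  997000 1288) (.T 20 100000 88000 996000 1124)) (.B 116100 (.T 25 120000 116000 995000 1445) (.T
  32 140000 154000 993000 1550))) (.B 270100 (.B 203800 (.T 40 180000 204000 991000 1822) (.T 49
  220000 270000 989000 2343)) (.B 357900 (.B 310900 (.T 64 300000 311000 987000 870) (.T 70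
  320000 358000 985000 1002)) (.B 412000 (.T 77 360000 412000 983000 1081) (.T 83 380000 474000
  980000 1332))))) (.B 1460900 (.B 832400 (.B 628300 (.B 545800 (.T 90 420000 546000 977000 1564)
  (.T 96 440000 628000 974000 1910)) (.B 723100 (.T 103 460000 723000 970000 2231) (.B 775800 (.T
  114 520000 776000 968000 1537) (.T 117 540000 832000 966000 1707)))) (.B 1102700 (.B 958000 (.B
  892900 (.T 120 540000 893000 963000 1856) (.T 124 560000 958000 960000 1911)) (.B 1027800 (.T
  127 580000 1028000 958000 2088) (.T 130 600000 1103000 954000 2247))) (.B 1269200 (.B 1183000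
  (.T 133 600000 1183000 951000 2361) (.T 136 620000 1269000 947000 2437)) (.B 1361600 (.T 139
  640000 1362000 943000 2469) (.B 1410300 (.T 145 660000 1410000 941000 2055) (.T 146 660000
  1461000 939000 2098)))))) (.B 2563900 (.B 1935300 (.B 1681400 (.B 1567200 (.B 1513100 (.T 148
  680000 1513000 937000 2037) (.T 149 680000 1567000 935000 2049)) (.B 1623200 (.T 150 680000
  1623000 932000 2053) (.T 152 700000 1681000 930000 1907))) (.B 1803800 (.B 1741500 (.T 153
  700000 1742000 927000 1886) (.T 154 700000 1803000 925000 1852)) (.B 1868300 (.T 156 720000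
  1818000 922000 1774) (.T 157 720000 1868000 919000 1735)))) (.B 2227500 (.B 2076200 (.B 2004500
  (.T 158 720000 1935000 916000 1686) (.T 159 720000 2005000 913000 1628)) (.B 2150500 (.T 160
  720000 2076000 909000 1560) (.T 162 740000 2151000 906000 1441))) (.B 2389700 (.T 159 720000
  2228000 899000 1506) (.T 161 740000 2390000 891000 1285)))) (.B 3396600 (.B 2951000 (.B 2750600
  (.T 163 740000 2564000 883000 1023) (.T 165 760000 2751000 874000 826)) (.B 3165900 (.T 167
  760000 2951000 864000 646) (.T 169 780000 3166000 853000 440))) (.B 3909500 (.T 163 740000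
  3397000 828000 276) (.T 165 760000 3910000 800000 0))))))

theorem d3_0 : chkT 8000000 8500000 U3_0 0 4500000 = true := by
  decide +kernel

end Pool.Agent.Lib.MP_172a45_an.F.H69.C
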