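import Pool.Agent.Lib.MP_172a45_an.F.H69.Def

set_option autoImplicit false
set_option maxRecDepth 100000

namespace Pool.Agent.Lib.MP_172a45_an.F.H69.C

/-- cells: N/t0 in [9, 10], y in [0, 6] -/
def U5_0 : Tt :=
  .B 50000 (.S 3046000 997000 0) (.B 547700 (.B 165400 (.B 90900 (.B 67400 (.T 18 60000 67000
  997000 435) (.T 23 80000 91000 996000 666)) (.B 122600 (.T 30 120000 123000 995000 744) (.T 38
  140000 165000 993000 953))) (.B 300900 (.B 223000 (.T 48 180000 223000 991000 1125) (.T 60
  220000 301000 987000 1419)) (.B 405900 (.T 72 260000 406000 983000 2176) (.B 471400 (.T 93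
  340000 471000 980000 846) (.T 100 380000 548000 977000 1065))))) (.B 1812700 (.B 996400 (.B
  738700 (.B 636000 (.T 108 400000 636000 974000 1288) (.T 115 420000 739000 970000 1748)) (.B
  857900 (.T 123 460000 858000 965000 2020) (.T 130 480000 996000 959000 2455))) (.B 1343900 (.B
  1157100 (.B 1073700 (.T 142 520000 1074000 956000 1810) (.T 146 540000 1157000 952000 1891))
  (.B 1247000 (.T 149 560000 1247000 948000 2007) (.T 153 560000 1344000 944000 2044))) (.B
  1560700 (.B 1448200 (.T 156 580000 1448000 940000 2117) (.T 159 600000 1561000 935000 2135))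
  (.B 1681900 (.T 162 600000 1682000 930000 2081) (.T 165 620000 1813000 924000 1970))))) (.B
  3297900 (.B 2445000 (.B 2105200 (.B 1953400 (.T 167 620000 1849000 918000 1886) (.T 170 640000
  1953000 911000 1767)) (.B 2268700 (.T 173 640000 2105000 904000 1551) (.T 175 640000 2269000
  896000 1379))) (.B 2839600 (.B 2634900 (.T 177 660000 2445000 888000 1150) (.T 179 660000
  2635000 879000 911)) (.B 3060100 (.T 182 680000 2840000 869000 729) (.T 184 680000 3060000
  858000 533)))) (.B 4448300 (.B 3830100 (.T 177 660000 3298000 832000 408) (.B 4127600 (.T 189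
  700000 3830000 818000 0) (.T 191 700000 4128000 802000 0))) (.B 5166200 (.B 4793800 (.T 192
  720000 4448000 785000 0) (.T 193 720000 4794000 765000 0)) (.B 5567500 (.T 195 720000 5166000
  744000 0) (.B 5779700 (.T 201 740000 5568000 733000 0) (.T 201 740000 5780000 721000 0))))))))

theorem d5_0 : chkT 9000000 10000000 U5_0 0 6000000 = true := by
  decide +kernel

end Pool.Agent.Lib.MP_172a45_an.F.H69.C
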