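import Pool.Agent.Lib.MP_172a45_an.F.H69.Def

set_option autoImplicit false
set_option maxRecDepth 100000

namespace Pool.Agent.Lib.MP_172a45_an.F.H69.C

/-- cells: N in [100, 125], deficit in [13, oo], t0 in [1, 4] -/
def Ta0 : Tr :=
  .B 8000 (.S 7502000 0 0) (.B 89400 (.B 26700 (.X 2000000 (.T 70 0 53000 0 0) (.B 14600 (.T 67
  20000 58000 88 0) (.T 103 40000 107000 88 0))) (.X 2000000 (.T 153 20000 179000 0 0) (.B 48800
  (.T 145 60000 195000 88 0) (.X 2828400 (.T 208 80000 253000 88 0) (.B 66000 (.T 203 120000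
  264000 133 0) (.T 226 140000 358000 133 0)))))) (.B 298900 (.X 2000000 (.B 163400 (.T 277 40000
  327000 0 0) (.X 1414200 (.T 353 40000 423000 0 0) (.T 326 80000 598000 44 0))) (.B 163400 (.X
  2828400 (.B 120800 (.T 271 100000 342000 88 0) (.T 295 120000 462000 88 0)) (.B 120800 (.X
  3363500 (.T 260 160000 406000 133 0) (.T 249 200000 483000 155 0)) (.X 3363500 (.T 282 180000
  550000 133 0) (.B 140400 (.T 279 220000 562000 155 0) (.T 289 240000 654000 155 0))))) (.X
  2828400 (.B 220900 (.T 317 120000 625000 88 0) (.X 2378400 (.T 353 140000 711000 88 0) (.B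
  256900 (.T 348 180000 727000 110 0) (.T 358 200000 845000 110 0)))) (.B 220900 (.X 3363500 (.B
  189900 (.T 313 200000 639000 133 0) (.T 323 220000 743000 133 0)) (.B 189900 (.X 3667900 (.T
  306 240000 697000 155 0) (.T 299 280000 760000 166 0)) (.X 3667900 (.T 315 260000 810000 155 0)
  (.B 204800 (.T 314 280000 819000 166 0) (.T 318 300000 884000 166 0))))) (.X 3363500 (.B 256900
  (.X 3084300 (.T 341 240000 792000 133 0) (.T 333 260000 864000 144 0)) (.X 3084300 (.T 350
  240000 922000 133 0) (.B 277100 (.T 348 260000 932000 144 0) (.T 353 280000 1005000 144 0))))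
  (.B 256900 (.X 3667900 (.B 238200 (.T 331 280000 874000 155 0) (.T 335 280000 942000 155 0))
  (.B 238200 (.T 323 300000 953000 166 0) (.X 3830300 (.T 331 320000 984000 166 0) (.T 327 320000
  1028000 171 0)))) (.X 3667900 (.B 277100 (.T 340 300000 1016000 155 0) (.T 344 300000 1096000
  155 0)) (.B 277100 (.X 3830300 (.T 336 320000 1061000 166 0) (.T 331 340000 1108000 171 0)) (.X
  3830300 (.T 340 340000 1145000 166 0) (.T 336 340000 1196000 171 0)))))))))) (.X 2000000 (.B
  546700 (.X 1414200 (.T 405 60000 773000 0 0) (.B 404200 (.T 390 100000 808000 44 0) (.T 412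
  120000 1093000 44 0))) (.X 1414200 (.T 454 0 1414000 0 0) (.T 408 120000 1525000 44 0))) (.B
  546700 (.X 2828400 (.B 404200 (.X 2378400 (.T 374 160000 961000 88 0) (.B 347500 (.T 368 200000
  983000 110 0) (.T 378 220000 1143000 110 0))) (.X 2378400 (.T 393 180000 1300000 88 0) (.B
  475400 (.T 386 240000 1345000 110 0) (.T 398 260000 1518000 110 0)))) (.B 404200 (.X 3363500
  (.B 347500 (.X 3084300 (.T 360 260000 1072000 133 0) (.B 322200 (.T 357 280000 1084000 144 0)
  (.T 362 300000 1169000 144 0))) (.X 3084300 (.T 369 280000 1247000 133 0) (.B 375800 (.T 366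
  300000 1264000 144 0) (.T 371 320000 1360000 144 0)))) (.B 347500 (.X 3667900 (.B 322200 (.T
  349 320000 1182000 155 0) (.T 353 320000 1275000 155 0)) (.B 322200 (.X 3830300 (.T 344 340000
  1234000 166 0) (.T 340 360000 1289000 171 0)) (.T 344 340000 1371000 166 0))) (.X 3667900 (.B
  375800 (.T 357 340000 1378000 155 0) (.T 362 340000 1428000 155 0)) (.B 375800 (.T 348 360000
  1393000 166 0) (.T 352 380000 1417000 166 0))))) (.X 3363500 (.B 475400 (.X 3084300 (.T 377
  300000 1454000 133 0) (.T 367 320000 1443000 144 0)) (.T 378 320000 1497000 133 0)) (.B 475400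
  (.X 3667900 (.T 357 340000 1432000 155 0) (.T 347 380000 1483000 166 0)) (.T 358 380000 1599000
  155 0))))) (.X 2828400 (.B 773300 (.T 387 220000 1516000 88 0) (.T 415 360000 1762000 88 0))
  (.B 773300 (.B 660000 (.T 360 320000 1546000 133 0) (.T 372 400000 1867000 133 0)) (.T 369
  560000 2187000 133 0)))))))

theorem ca0 : chk 100 125 13 0 Ta0 0 1000000 1000000 4000000 = true := by
  decide +kernel

end Pool.Agent.Lib.MP_172a45_an.F.H69.C
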