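import Pool.Agent.Lib.MP_172a45_an.F.H69.Def

set_option autoImplicit false
set_option maxRecDepth 100000

namespace Pool.Agent.Lib.MP_172a45_an.F.H69.C

/-- cells: N in [100, 125], deficit in [13, oo], t0 in [12.25, 12.5] -/
def Ta5 : Tr :=
  .B 8000 (.S 1898000 320 3285) (.B 89400 (.B 26700 (.B 14600 (.B 10800 (.B 9200 (.T 53 200000
  115000 320 1650) (.T 58 220000 135000 320 2469)) (.B 12500 (.T 66 240000 156000 320 2338) (.T
  72 260000 183000 320 2946))) (.B 19700 (.B 16900 (.T 79 280000 211000 320 3271) (.T 86 320000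
  246000 320 3711)) (.B 22900 (.T 93 340000 286000 320 4115) (.B 24700 (.T 105 380000 309000 320
  3118) (.T 109 400000 334000 320 3329))))) (.B 48800 (.B 36000 (.B 31000 (.B 28700 (.T 113
  420000 359000 320 3474) (.T 116 420000 388000 320 3766)) (.B 33400 (.T 120 440000 418000 320
  3892) (.T 124 460000 450000 320 4004))) (.B 41900 (.B 38800 (.T 128 480000 485000 320 4336) (.B
  40300 (.T 134 500000 504000 320 3744) (.T 136 500000 524000 320 3790))) (.B 45200 (.B 43500 (.T
  138 520000 544000 320 3820) (.T 140 520000 565000 320 3846)) (.B 46900 (.T 142 520000 586000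
  320 3856) (.T 143 540000 610000 320 3975))))) (.B 66000 (.B 56700 (.B 52600 (.B 50600 (.T 145
  540000 633000 320 3961) (.T 147 540000 658000 320 4054)) (.B 54600 (.T 149 560000 683000 320
  3911) (.T 150 560000 709000 320 4117))) (.B 61100 (.B 58800 (.T 152 560000 735000 320 3906) (.T
  154 580000 764000 320 3821)) (.B 63500 (.T 155 580000 794000 320 3816) (.T 157 600000 825000
  320 3732)))) (.B 76800 (.B 71100 (.T 155 580000 889000 320 4305) (.T 158 600000 912000 320
  3686)) (.T 154 580000 941000 320 4534))))) (.B 298900 (.B 163400 (.B 120800 (.B 103900 (.T 160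
  620000 1095000 320 3222) (.T 165 640000 1273000 320 2313)) (.T 153 600000 1480000 320 1815))
  (.T 124 500000 2002000 320 0)) (.B 546700 (.T 137 620000 3662000 320 0) (.T 153 1000000 6697000
  320 0))))

theorem ca5 : chk 100 125 13 0 Ta5 0 1000000 12250000 12500000 = true := by
  decide +kernel

end Pool.Agent.Lib.MP_172a45_an.F.H69.C
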