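import Pool.Agent.Lib.MP_172a45_an.F.H69.Def

set_option autoImplicit false
set_option maxRecDepth 100000

namespace Pool.Agent.Lib.MP_172a45_an.F.H69.C

/-- cells: N in [125, 160], deficit in [13, oo], t0 in [12, 12.5] -/
def Tb3 : Tr :=
  .B 8000 (.S 2363000 318 0) (.B 89400 (.B 26700 (.B 14600 (.B 10800 (.T 64 160000 135000 318
  1862) (.T 78 200000 183000 318 2889)) (.B 19700 (.T 93 240000 246000 318 3928) (.B 22900 (.T
  116 300000 286000 318 2000) (.T 124 320000 334000 318 2762)))) (.B 48800 (.B 36000 (.B 31000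
  (.T 133 360000 388000 318 3250) (.T 141 380000 450000 318 3764)) (.B 41900 (.B 38800 (.T 154
  420000 485000 318 3027) (.T 158 420000 524000 318 3268)) (.B 45200 (.T 162 440000 565000 318
  3454) (.T 166 440000 610000 318 3597)))) (.B 66000 (.B 56700 (.B 52600 (.T 170 460000 658000
  318 3676) (.T 174 480000 709000 318 3933)) (.B 61100 (.T 177 480000 764000 318 4527) (.T 181
  500000 825000 318 4057))) (.B 76800 (.B 71100 (.T 184 500000 889000 318 3579) (.T 187 520000
  960000 318 3423)) (.T 184 500000 968000 318 4285))))) (.B 298900 (.B 163400 (.B 120800 (.B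
  103900 (.T 190 520000 1073000 318 3029) (.T 195 540000 1247000 318 2268)) (.T 183 520000
  1450000 318 1831)) (.T 155 460000 1961000 318 0)) (.B 546700 (.T 169 560000 3587000 318 0) (.T
  186 860000 6560000 318 0))))

theorem cb3 : chk 125 160 13 0 Tb3 0 1000000 12000000 12500000 = true := by
  decide +kernel

end Pool.Agent.Lib.MP_172a45_an.F.H69.C
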