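import Pool.Agent.Lib.MP_172a45_an.F.H69.Def

set_option autoImplicit false
set_option maxRecDepth 100000

namespace Pool.Agent.Lib.MP_172a45_an.F.H69.C

/-- cells: N in [160, 200], deficit in [13, oo], t0 in [6.5, 12.5] -/
def Tc1 : Tr :=
  .B 8000 (.S 2948000 239 0) (.B 89400 (.B 26700 (.B 14600 (.X 9013800 (.T 84 80000 132000 239 0)
  (.B 10800 (.T 83 120000 135000 281 0) (.T 100 140000 183000 281 0))) (.X 9013800 (.B 19700 (.T
  131 140000 178000 239 0) (.T 152 160000 241000 239 0)) (.B 19700 (.T 118 180000 246000 281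
  1332) (.X 10614700 (.T 144 220000 283000 281 0) (.T 135 240000 334000 302 2987))))) (.B 48800
  (.X 9013800 (.B 36000 (.T 173 180000 324000 239 0) (.X 7654300 (.T 203 200000 374000 239 0) (.T
  192 240000 440000 260 345))) (.B 36000 (.X 10614700 (.T 163 240000 382000 281 1265) (.B 31000
  (.T 162 280000 388000 302 1251) (.T 171 300000 450000 302 2224))) (.X 10614700 (.B 41900 (.T
  191 280000 445000 281 124) (.T 200 300000 518000 281 1086)) (.B 41900 (.X 11518800 (.T 185
  340000 483000 302 1289) (.T 179 360000 524000 312 2796)) (.X 11518800 (.T 194 340000 562000 302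
  2099) (.T 188 380000 610000 312 3352)))))) (.X 9013800 (.B 66000 (.X 7654300 (.T 223 220000
  505000 239 0) (.T 210 260000 595000 260 2491)) (.X 7654300 (.B 76800 (.T 252 260000 588000 239
  0) (.T 261 280000 684000 239 0)) (.B 76800 (.T 239 300000 692000 260 914) (.T 247 300000 806000
  260 1277)))) (.B 66000 (.X 10614700 (.B 56700 (.T 209 320000 602000 281 1763) (.T 217 320000
  701000 281 3047)) (.B 56700 (.X 11518800 (.T 202 360000 653000 302 2679) (.B 52600 (.T 202
  400000 658000 312 2617) (.T 205 400000 709000 312 2905))) (.X 11518800 (.T 210 380000 760000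
  302 3161) (.B 61100 (.T 209 420000 764000 312 3020) (.T 213 420000 825000 312 3069))))) (.X
  10614700 (.B 76800 (.X 9781500 (.T 232 340000 751000 281 1543) (.T 225 380000 815000 291 2269))
  (.X 9781500 (.T 240 360000 874000 281 1713) (.T 232 380000 949000 291 2265))) (.B 76800 (.X
  11518800 (.B 71100 (.T 224 400000 819000 302 2293) (.T 227 420000 885000 302 2369)) (.B 71100
  (.T 217 440000 889000 312 3018) (.T 220 440000 960000 312 2955))) (.X 11518800 (.T 224 420000
  1030000 302 2789) (.T 216 440000 1034000 312 3214)))))))) (.B 298900 (.B 163400 (.X 9013800 (.B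
  120800 (.X 7654300 (.B 103900 (.T 269 280000 795000 239 271) (.T 277 300000 925000 239 492))
  (.B 103900 (.T 255 320000 937000 260 1349) (.T 262 340000 1089000 260 1175))) (.X 7654300 (.B
  140400 (.X 7053500 (.T 293 320000 990000 239 0) (.T 285 340000 1075000 250 228)) (.X 7053500
  (.T 300 320000 1153000 239 0) (.T 292 340000 1200000 250 0))) (.B 140400 (.T 269 340000 1145000
  260 770) (.T 275 360000 1167000 260 366)))) (.B 120800 (.X 10614700 (.B 103900 (.T 239 360000
  1075000 281 3333) (.T 245 380000 1095000 281 1720)) (.B 103900 (.X 11518800 (.T 231 420000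
  1071000 302 2284) (.T 223 460000 1058000 312 2633)) (.T 228 420000 1103000 302 2417))) (.X
  10614700 (.B 140400 (.T 252 400000 1119000 281 1221) (.T 257 400000 1266000 281 647)) (.B
  140400 (.T 234 440000 1282000 302 1574) (.T 239 460000 1490000 302 343))))) (.X 9013800 (.B
  220900 (.X 7654300 (.B 189900 (.X 7053500 (.T 307 340000 1235000 239 0) (.T 299 360000 1225000
  250 0)) (.T 305 340000 1241000 239 0)) (.B 189900 (.T 281 380000 1251000 260 0) (.T 287 380000
  1454000 260 0))) (.X 7654300 (.B 256900 (.T 311 360000 1436000 239 0) (.T 317 360000 1670000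
  239 0)) (.T 275 380000 1691000 260 0))) (.B 220900 (.X 10614700 (.T 246 400000 1473000 281 312)
  (.T 226 440000 1734000 302 0)) (.T 235 400000 1991000 281 0)))) (.B 546700 (.X 9013800 (.B
  404200 (.X 7654300 (.T 306 360000 1943000 239 0) (.T 285 420000 2288000 260 0)) (.T 295 400000
  2627000 239 0)) (.B 404200 (.T 243 440000 2694000 281 0) (.T 252 500000 3643000 281 0))) (.X
  9013800 (.T 267 420000 3554000 239 0) (.T 221 540000 4928000 281 0)))))

theorem cc1 : chk 160 200 13 0 Tc1 0 1000000 6500000 12500000 = true := by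
  decide +kernel

end Pool.Agent.Lib.MP_172a45_an.F.H69.C
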