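import Pool.Agent.Lib.MP_172a45_an.F.H69.Def

set_option autoImplicit false
set_option maxRecDepth 100000

namespace Pool.Agent.Lib.MP_172a45_an.F.H69.C

/-- cells: N in [200, 260], deficit in [13, oo], t0 in [7.75, 12.5] -/
def Td1 : Tr :=
  .B 8000 (.S 3548000 262 0) (.B 89400 (.B 26700 (.B 14600 (.B 10800 (.T 103 100000 135000 262 0)
  (.T 122 120000 183000 262 0)) (.B 19700 (.T 142 140000 246000 262 0) (.X 9842500 (.T 173 160000
  263000 262 0) (.T 161 200000 334000 292 110)))) (.B 48800 (.B 36000 (.X 9842500 (.T 195 180000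
  354000 262 0) (.B 31000 (.T 189 240000 388000 292 0) (.T 199 240000 450000 292 111))) (.X
  9842500 (.T 214 200000 480000 262 95) (.B 41900 (.T 207 260000 524000 292 1971) (.X 11091900
  (.T 225 280000 541000 292 0) (.T 216 300000 610000 307 2656))))) (.B 66000 (.X 9842500 (.B
  56700 (.T 243 220000 558000 262 0) (.T 252 240000 650000 262 380)) (.B 56700 (.X 11091900 (.T
  234 300000 629000 292 1025) (.B 52600 (.T 230 320000 658000 307 1883) (.T 235 340000 709000 307
  2241))) (.X 11091900 (.T 242 300000 732000 292 1912) (.B 61100 (.T 239 340000 764000 307 2592)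
  (.T 242 340000 825000 307 2938))))) (.X 9842500 (.B 76800 (.T 261 240000 756000 262 1054) (.T
  269 260000 880000 262 1482)) (.B 76800 (.X 11091900 (.T 250 320000 852000 292 2333) (.B 71100
  (.T 246 360000 889000 307 3015) (.T 249 360000 960000 307 3064))) (.X 11091900 (.T 258 320000
  992000 292 2309) (.B 82800 (.T 253 360000 1035000 307 2869) (.T 256 380000 1112000 307
  2599)))))))) (.B 298900 (.B 163400 (.B 120800 (.X 9842500 (.B 103900 (.X 8733800 (.T 287 280000
  907000 262 337) (.T 276 300000 1023000 277 1218)) (.X 8733800 (.T 295 280000 1055000 262 348)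
  (.T 283 320000 1162000 277 820))) (.B 103900 (.X 11091900 (.T 265 340000 1125000 292 1883) (.T
  253 360000 1107000 307 2695)) (.X 11091900 (.T 271 340000 1145000 292 1272) (.T 258 380000
  1152000 307 2022)))) (.X 9842500 (.B 140400 (.X 8733800 (.T 302 300000 1201000 262 23) (.T 290
  320000 1184000 277 282)) (.T 295 300000 1192000 262 108)) (.B 140400 (.T 264 340000 1189000 292
  1663) (.T 269 360000 1382000 292 508)))) (.B 220900 (.X 9842500 (.B 189900 (.T 301 300000
  1266000 262 0) (.T 307 320000 1472000 262 0)) (.T 257 340000 1608000 292 0)) (.X 9842500 (.T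
  295 320000 1712000 262 0) (.T 265 360000 2174000 292 0)))) (.B 546700 (.B 404200 (.X 9842500
  (.T 305 340000 2316000 262 0) (.T 274 400000 2942000 292 0)) (.T 283 360000 3133000 262 0)) (.T
  252 380000 4237000 262 0))))

theorem cd1 : chk 200 260 13 0 Td1 0 1000000 7750000 12500000 = true := by
  decide +kernel

end Pool.Agent.Lib.MP_172a45_an.F.H69.C
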