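import Pool.Agent.Lib.MP_172a45_an.F.H69.Def

set_option autoImplicit false
set_option maxRecDepth 100000

namespace Pool.Agent.Lib.MP_172a45_an.F.H69.C

/-- cells: N in [260, 350], deficit in [13, oo], t0 in [9.5, 12.5] -/
def Te1 : Tr :=
  .B 8000 (.S 4350000 288 0) (.B 89400 (.B 26700 (.B 14600 (.T 118 100000 183000 288 0) (.B 19700
  (.T 171 140000 246000 288 0) (.T 192 160000 334000 288 0))) (.B 48800 (.B 36000 (.T 213 180000
  450000 288 0) (.B 41900 (.T 241 200000 524000 288 0) (.T 250 220000 610000 288 926))) (.B 66000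
  (.B 56700 (.X 10897200 (.T 270 240000 618000 288 0) (.T 259 260000 709000 305 2983)) (.X
  10897200 (.T 278 240000 719000 288 0) (.B 61100 (.T 273 280000 764000 305 1245) (.T 277 280000
  825000 305 2534)))) (.B 76800 (.X 10897200 (.T 287 260000 837000 288 756) (.B 71100 (.X
  11671100 (.T 287 300000 830000 305 0) (.T 281 320000 889000 314 2473)) (.X 11671100 (.T 291
  300000 896000 305 418) (.T 284 320000 960000 314 3090)))) (.X 10897200 (.T 294 260000 974000
  288 1434) (.B 82800 (.X 11671100 (.T 295 300000 966000 305 728) (.T 288 320000 1035000 314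
  2996)) (.X 11671100 (.T 298 300000 1043000 305 872) (.T 291 320000 1118000 314 2664)))))))) (.B
  298900 (.B 163400 (.B 120800 (.B 103900 (.X 10897200 (.T 301 260000 1132000 288 1218) (.B 96300
  (.T 295 300000 1179000 305 2267) (.T 298 320000 1188000 305 1329))) (.X 10897200 (.T 308 280000
  1202000 288 265) (.T 294 300000 1182000 305 1601))) (.B 140400 (.T 299 280000 1188000 288 1098)
  (.T 305 280000 1334000 288 0))) (.B 220900 (.T 293 280000 1552000 288 0) (.T 301 300000 2099000
  288 0))) (.B 546700 (.T 272 280000 2840000 288 0) (.T 288 400000 5194000 288 0))))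

theorem ce1 : chk 260 350 13 0 Te1 0 1000000 9500000 12500000 = true := by
  decide +kernel

end Pool.Agent.Lib.MP_172a45_an.F.H69.C
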