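import Pool.Agent.Lib.MP_172a45_an.F.H69.Def

set_option autoImplicit false
set_option maxRecDepth 100000

namespace Pool.Agent.Lib.MP_172a45_an.F.H69.C

/-- cells: N in [350, oo], deficit in [13, oo], t0 in [1, 12.5] -/
def Tf0 : Tr :=
  .B 8000 (.X 3535500 (.S 17676000 0 0) (.S 4998000 161 0)) (.B 89400 (.X 3535500 (.B 26700 (.T
  170 0 94000 0 0) (.M 277 275 316000 0 0)) (.B 26700 (.X 6647800 (.T 151 0 177000 161 0) (.B
  14600 (.T 149 0 183000 242 0) (.X 9115700 (.T 208 0 243000 242 0) (.T 192 0 334000 282 0))))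
  (.X 6647800 (.B 48800 (.M 272 272 324000 161 0) (.X 4848000 (.M 336 336 433000 161 0) (.M 314
  314 594000 202 0))) (.B 48800 (.X 9115700 (.M 253 253 445000 242 0) (.B 36000 (.M 251 251
  450000 282 0) (.M 269 269 610000 282 0))) (.X 9115700 (.B 66000 (.M 312 312 602000 242 0) (.M
  329 329 815000 242 0)) (.B 66000 (.X 10674500 (.M 299 299 705000 282 0) (.B 56700 (.M 298 298
  709000 303 0) (.M 306 306 825000 303 0))) (.X 10674500 (.B 76800 (.M 328 328 820000 282 0) (.M
  336 336 954000 282 0)) (.B 76800 (.M 314 314 960000 303 0) (.X 11551200 (.M 328 328 1033000 303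
  0) (.M 321 321 1118000 313 0)))))))))) (.X 3535500 (.B 298900 (.X 1880200 (.M 414 412 562000 0
  0) (.B 163400 (.M 402 402 578000 80 0) (.X 2578200 (.M 469 469 771000 80 0) (.B 220900 (.M 463
  463 781000 121 0) (.M 481 481 1057000 121 0))))) (.X 1880200 (.B 546700 (.M 539 539 1028000 0
  0) (.T 580 0 1766000 0 0)) (.B 546700 (.X 2578200 (.M 505 505 1410000 80 0) (.B 404200 (.M 498
  498 1429000 121 0) (.M 513 513 1632000 121 0))) (.M 497 497 1669000 80 0)))) (.B 298900 (.X
  6647800 (.B 163400 (.X 4848000 (.B 120800 (.M 398 398 586000 161 0) (.M 417 417 792000 161 0))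
  (.B 120800 (.M 373 373 803000 202 0) (.X 5677000 (.M 403 403 928000 202 0) (.M 389 389 1086000
  222 0)))) (.X 4848000 (.B 220900 (.X 4140000 (.M 449 449 915000 161 0) (.M 434 434 1071000 181
  0)) (.X 4140000 (.M 465 465 1237000 161 0) (.M 449 449 1449000 181 0))) (.B 220900 (.X 5677000
  (.M 419 419 1254000 202 0) (.M 403 403 1376000 222 0)) (.X 5677000 (.M 433 433 1444000 202 0)
  (.M 415 415 1424000 222 0))))) (.B 163400 (.X 9115700 (.B 120800 (.X 7784500 (.M 359 359 940000
  242 0) (.M 344 344 1101000 262 0)) (.X 7784500 (.M 373 373 1272000 242 0) (.M 357 357 1295000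
  262 0))) (.B 120800 (.X 10674500 (.M 329 329 1238000 282 0) (.B 103900 (.M 328 328 1251000 303
  0) (.M 334 334 1269000 303 0))) (.M 323 323 1237000 282 0))) (.X 9115700 (.B 220900 (.X 7784500
  (.M 386 386 1356000 242 0) (.M 369 369 1336000 262 0)) (.X 7784500 (.M 398 398 1468000 242 0)
  (.M 379 379 1720000 262 0))) (.B 220900 (.M 333 333 1490000 282 0) (.M 342 342 2014000 282
  0))))) (.X 6647800 (.B 546700 (.X 4848000 (.B 404200 (.X 4140000 (.M 481 481 1543000 161 0) (.M
  463 463 1523000 181 0)) (.M 477 477 1592000 161 0)) (.B 404200 (.X 5677000 (.M 446 446 1505000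
  202 0) (.M 427 427 1697000 222 0)) (.M 438 438 1960000 202 0))) (.X 4848000 (.M 456 456 1933000
  161 0) (.M 414 414 2650000 202 0))) (.B 546700 (.X 9115700 (.B 404200 (.M 389 389 1987000 242
  0) (.M 399 399 2687000 242 0)) (.M 313 313 2725000 282 0)) (.M 329 329 3634000 242 0))))))

theorem cf0 : chk 350 0 13 0 Tf0 0 1000000 1000000 12500000 = true := by
  decide +kernel

end Pool.Agent.Lib.MP_172a45_an.F.H69.C
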