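import Pool.Agent.Lib.MP_172a45_an.F.H69.Def

set_option autoImplicit false
set_option maxRecDepth 100000

namespace Pool.Agent.Lib.MP_172a45_an.F.H69.C

/-- cells: N in [100, oo], deficit in [10, 13], t0 in [1, 3.25] -/
def Tg0 : Tr :=
  .B 8000 (.S 9413000 0 0) (.B 89400 (.B 26700 (.B 14600 (.T 70 0 47000 0 0) (.T 108 0 87000 0
  0)) (.B 48800 (.T 153 0 159000 0 0) (.X 1802700 (.T 226 0 161000 0 0) (.B 66000 (.D 213 60000
  215000 75 0 76) (.D 238 60000 291000 75 0 76))))) (.B 298900 (.B 163400 (.X 1802700 (.T 283 0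
  295000 0 0) (.B 120800 (.X 2420400 (.D 280 80000 292000 75 0 76) (.D 262 180000 393000 113 0
  114)) (.X 2420400 (.M 305 305 395000 75 0) (.B 140400 (.D 294 200000 456000 113 0 114) (.D 305
  200000 531000 113 0 114))))) (.X 1802700 (.M 335 335 539000 0 0) (.B 220900 (.X 2420400 (.M 329
  329 535000 75 0) (.B 189900 (.X 2804600 (.M 327 327 533000 113 0) (.D 316 300000 617000 132 0
  133)) (.X 2804600 (.M 338 338 620000 113 0) (.B 204800 (.D 331 320000 666000 132 0 133) (.D 336
  320000 718000 132 0 133))))) (.X 2420400 (.B 256900 (.M 361 361 622000 75 0) (.M 372 372 723000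
  75 0)) (.B 256900 (.X 2804600 (.M 349 349 721000 113 0) (.B 238200 (.D 341 340000 774000 132 0
  133) (.X 3019000 (.D 353 340000 776000 132 0 133) (.D 346 400000 835000 141 0 142)))) (.X
  2804600 (.B 277100 (.M 364 364 777000 113 0) (.M 370 370 838000 113 0)) (.B 277100 (.X 3019000
  (.D 358 360000 837000 132 0 133) (.D 351 420000 901000 141 0 142)) (.X 3019000 (.D 363 360000
  902000 132 0 133) (.D 356 420000 971000 141 0 142))))))))) (.B 546700 (.X 1802700 (.B 404200
  (.M 400 399 729000 0 0) (.M 423 422 986000 0 0)) (.B 404200 (.X 2420400 (.B 347500 (.X 2088800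
  (.M 396 396 726000 75 0) (.M 383 383 841000 94 0)) (.X 2088800 (.M 407 407 844000 75 0) (.M 393
  393 978000 94 0))) (.B 347500 (.X 2804600 (.B 322200 (.M 375 375 904000 113 0) (.X 2605400 (.M
  387 387 905000 113 0) (.M 380 380 975000 122 0))) (.B 322200 (.X 3019000 (.D 368 360000 973000
  132 0 133) (.B 310300 (.D 364 420000 1008000 141 0 142) (.D 366 440000 1047000 141 0 142))) (.X
  3019000 (.B 334800 (.D 375 360000 1011000 132 0 133) (.D 378 360000 1049000 132 0 133)) (.B
  334800 (.D 368 440000 1088000 141 0 142) (.D 371 440000 1129000 141 0 142))))) (.X 2804600 (.B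
  375800 (.X 2605400 (.M 391 391 979000 113 0) (.M 384 384 1054000 122 0)) (.X 2605400 (.M 397
  397 1053000 113 0) (.M 390 390 1134000 122 0))) (.B 375800 (.X 3019000 (.B 361600 (.D 380
  380000 1092000 132 0 133) (.D 383 380000 1135000 132 0 133)) (.B 361600 (.D 373 440000 1175000
  141 0 142) (.D 375 440000 1221000 141 0 142))) (.X 3019000 (.X 2909800 (.D 386 380000 1176000
  132 0 133) (.D 382 420000 1220000 136 0 137)) (.X 3132300 (.D 378 440000 1266000 141 0 142) (.D
  375 480000 1314000 146 0 147))))))) (.X 2420400 (.B 475400 (.X 2088800 (.M 417 417 993000 75 0)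
  (.B 439800 (.M 408 408 1064000 94 0) (.M 415 415 1151000 94 0))) (.X 2088800 (.M 431 431
  1142000 75 0) (.M 415 415 1323000 94 0))) (.B 475400 (.X 2804600 (.B 439800 (.X 2605400 (.M 401
  401 1146000 113 0) (.M 393 393 1233000 122 0)) (.M 399 399 1333000 113 0)) (.B 439800 (.X
  3019000 (.D 386 380000 1328000 132 0 133) (.D 378 440000 1429000 141 0 142)) (.X 3019000 (.M
  391 391 1435000 132 0) (.D 383 460000 1533000 141 0 142)))) (.X 2804600 (.M 399 399 1533000 113
  0) (.X 3019000 (.M 390 390 1550000 132 0) (.D 382 440000 1548000 141 0 142))))))) (.X 1802700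
  (.B 773300 (.M 442 442 1394000 0 0) (.T 474 0 1737000 0 0)) (.B 773300 (.X 2420400 (.B 660000
  (.M 420 420 1591000 75 0) (.M 434 434 1704000 75 0)) (.B 660000 (.X 2804600 (.M 403 403 1602000
  113 0) (.M 385 385 1588000 132 0)) (.M 398 398 1682000 113 0))) (.M 396 396 1721000 75 0))))))

theorem cg0 : chk 100 0 10 13 Tg0 0 1000000 1000000 3250000 = true := by
  decide +kernel

end Pool.Agent.Lib.MP_172a45_an.F.H69.C
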