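import Pool.Agent.Lib.MP_172a45_an.F.H69.Def

set_option autoImplicit false
set_option maxRecDepth 100000

namespace Pool.Agent.Lib.MP_172a45_an.F.H69.C

/-- cells: N in [100, oo], deficit in [10, 13], t0 in [3.25, 4] -/
def Tg1 : Tr :=
  .B 8000 (.S 7502000 150 0) (.B 89400 (.B 26700 (.B 14600 (.D 67 100000 58000 150 0 151) (.D 103
  140000 107000 150 0 151)) (.B 48800 (.D 145 200000 195000 150 0 151) (.B 66000 (.D 203 280000
  264000 150 0 151) (.D 226 320000 358000 150 0 151)))) (.B 298900 (.B 163400 (.B 120800 (.B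
  103900 (.D 257 360000 416000 150 0 151) (.D 268 380000 483000 150 0 151)) (.B 140400 (.D 279
  400000 562000 150 0 151) (.X 3605500 (.D 297 420000 589000 150 0 151) (.D 289 500000 654000 164
  0 165)))) (.B 220900 (.B 189900 (.X 3605500 (.D 307 440000 685000 150 0 151) (.B 176100 (.D 304
  540000 704000 164 0 165) (.D 309 540000 760000 164 0 165))) (.X 3605500 (.B 204800 (.D 323
  460000 738000 150 0 151) (.D 327 460000 796000 150 0 151)) (.B 204800 (.D 314 560000 819000 164
  0 165) (.X 3797600 (.D 323 560000 839000 164 0 165) (.D 318 620000 884000 170 0 171))))) (.B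
  256900 (.X 3605500 (.B 238200 (.X 3423100 (.D 337 480000 815000 150 0 151) (.D 332 520000
  859000 157 0 158)) (.X 3423100 (.D 342 480000 879000 150 0 151) (.D 337 520000 926000 157 0
  158))) (.B 238200 (.X 3797600 (.D 328 580000 905000 164 0 165) (.D 323 640000 953000 170 0
  171)) (.X 3797600 (.D 332 580000 976000 164 0 165) (.B 247300 (.D 330 660000 989000 170 0 171)
  (.D 332 660000 1028000 170 0 171))))) (.X 3605500 (.B 277100 (.X 3423100 (.D 346 480000 949000
  150 0 151) (.D 341 540000 999000 157 0 158)) (.X 3423100 (.D 351 500000 1023000 150 0 151) (.B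
  287700 (.D 349 540000 1037000 157 0 158) (.D 351 560000 1078000 157 0 158)))) (.B 277100 (.X
  3797600 (.B 266800 (.D 340 600000 1013000 164 0 165) (.D 342 600000 1052000 164 0 165)) (.B
  266800 (.D 335 660000 1067000 170 0 171) (.D 337 660000 1108000 170 0 171))) (.X 3797600 (.B
  287700 (.D 344 600000 1093000 164 0 165) (.D 346 600000 1135000 164 0 165)) (.B 287700 (.D 339
  680000 1151000 170 0 171) (.D 341 680000 1196000 170 0 171)))))))) (.B 546700 (.B 404200 (.B
  347500 (.X 3605500 (.B 322200 (.X 3423100 (.B 310300 (.D 359 500000 1062000 150 0 151) (.D 361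
  500000 1103000 150 0 151)) (.B 310300 (.D 354 560000 1119000 157 0 158) (.D 356 560000 1162000
  157 0 158))) (.X 3423100 (.B 334800 (.D 363 500000 1146000 150 0 151) (.D 365 520000 1190000
  150 0 151)) (.B 334800 (.D 358 560000 1207000 157 0 158) (.D 360 560000 1253000 157 0 158))))
  (.B 322200 (.X 3797600 (.B 310300 (.D 348 620000 1178000 164 0 165) (.D 351 620000 1224000 164
  0 165)) (.B 310300 (.D 343 680000 1241000 170 0 171) (.D 345 680000 1289000 170 0 171))) (.X
  3797600 (.B 334800 (.D 353 620000 1271000 164 0 165) (.D 355 620000 1320000 164 0 165)) (.B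
  334800 (.D 347 680000 1339000 170 0 171) (.D 349 700000 1390000 170 0 171))))) (.X 3605500 (.B
  375800 (.X 3423100 (.B 361600 (.D 367 520000 1238000 150 0 151) (.D 370 520000 1286000 150 0
  151)) (.B 361600 (.D 362 560000 1304000 157 0 158) (.D 364 580000 1355000 157 0 158))) (.X
  3423100 (.D 369 520000 1384000 150 0 151) (.D 364 580000 1457000 157 0 158))) (.B 375800 (.X
  3797600 (.B 361600 (.D 357 620000 1373000 164 0 165) (.D 359 640000 1427000 164 0 165)) (.D 348
  680000 1487000 170 0 171)) (.X 3797600 (.D 358 640000 1505000 164 0 165) (.D 352 700000 1511000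
  170 0 171))))) (.B 475400 (.X 3605500 (.B 439800 (.X 3423100 (.D 372 520000 1505000 150 0 151)
  (.D 366 580000 1519000 157 0 158)) (.D 372 520000 1532000 150 0 151)) (.B 439800 (.X 3797600
  (.D 361 640000 1526000 164 0 165) (.D 355 700000 1535000 170 0 171)) (.D 360 640000 1586000 164
  0 165))) (.X 3605500 (.D 370 520000 1545000 150 0 151) (.D 358 640000 1714000 164 0 165)))) (.B
  773300 (.B 660000 (.X 3605500 (.D 372 520000 1777000 150 0 151) (.D 360 640000 1971000 164 0
  165)) (.M 372 372 2145000 150 0)) (.M 369 201 2513000 150 0)))))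

theorem cg1 : chk 100 0 10 13 Tg1 0 1000000 3250000 4000000 = true := by
  decide +kernel

end Pool.Agent.Lib.MP_172a45_an.F.H69.C
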