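import Pool.Agent.Lib.MP_172a45_an.F.H69.Def

set_option autoImplicit false
set_option maxRecDepth 100000

namespace Pool.Agent.Lib.MP_172a45_an.F.H69.C

/-- cells: N in [100, oo], deficit in [10, 13], t0 in [12.25, 12.5] -/
def Tg5 : Tr :=
  .B 8000 (.B 4000 (.B 2000 (.S 2587000 320 0) (.B 2800 (.B 2300 (.D 16 520000 29000 320 0 321)
  (.D 18 580000 35000 320 0 321)) (.B 3300 (.D 22 700000 41000 320 0 321) (.D 25 800000 50000 320
  0 321)))) (.B 5600 (.B 4700 (.D 30 960000 59000 320 0 321) (.D 35 1120000 70000 320 0 321)) (.B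
  6600 (.D 40 1280000 83000 320 0 321) (.D 45 1440000 100000 320 0 321)))) (.B 89400 (.B 26700
  (.B 14600 (.B 10800 (.D 49 1580000 135000 320 0 321) (.D 60 1680000 183000 320 0 321)) (.B
  19700 (.D 73 1680000 246000 320 0 321) (.B 22900 (.D 93 1680000 286000 320 0 321) (.D 101
  1680000 334000 320 0 321)))) (.B 48800 (.B 36000 (.B 31000 (.D 108 1680000 388000 320 0 321)
  (.D 115 1680000 450000 320 0 321)) (.B 41900 (.D 122 1680000 524000 320 0 321) (.D 129 1680000
  610000 320 0 321))) (.B 66000 (.B 56700 (.D 136 1680000 709000 320 0 321) (.B 61100 (.D 149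
  1680000 764000 320 0 321) (.D 152 1680000 825000 320 0 321))) (.B 76800 (.B 71100 (.D 155
  1680000 889000 320 0 321) (.D 158 1680000 960000 320 0 321)) (.B 82800 (.D 161 1680000 1035000
  320 0 321) (.D 164 1680000 1118000 320 0 321)))))) (.B 298900 (.B 163400 (.B 120800 (.B 103900
  (.D 160 1680000 1254000 320 0 321) (.D 165 1680000 1281000 320 0 321)) (.D 153 1680000 1480000
  320 0 321)) (.D 124 1680000 2002000 320 0 321)) (.B 546700 (.D 137 1680000 3662000 320 0 321)
  (.D 153 1680000 6697000 320 0 321))))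

theorem cg5 : chk 100 0 10 13 Tg5 0 1000000 12250000 12500000 = true := by
  decide +kernel

end Pool.Agent.Lib.MP_172a45_an.F.H69.C
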