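import Pool.Agent.Lib.MP_172a45_an.F.H69.Def

set_option autoImplicit false
set_option maxRecDepth 100000

namespace Pool.Agent.Lib.MP_172a45_an.F.H69.C

/-- cells: N in [100, oo], deficit in [8, 10], t0 in [2.75, 3] -/
def Th1 : Tr :=
  .B 8000 (.S 10263000 129 0) (.B 89400 (.B 26700 (.D 63 80000 80000 129 0 130) (.B 48800 (.D 156
  200000 146000 129 0 130) (.D 205 260000 268000 129 0 130))) (.B 298900 (.B 163400 (.B 120800
  (.D 267 340000 362000 129 0 130) (.D 291 360000 490000 129 0 130)) (.B 220900 (.B 189900 (.D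
  322 400000 570000 129 0 130) (.D 333 420000 663000 129 0 130)) (.B 256900 (.B 238200 (.D 348
  440000 715000 129 0 130) (.D 353 440000 771000 129 0 130)) (.B 277100 (.X 2872200 (.D 362
  440000 796000 129 0 130) (.D 358 500000 831000 135 0 136)) (.X 2872200 (.D 367 460000 859000
  129 0 130) (.B 287700 (.D 366 500000 863000 135 0 136) (.D 369 500000 897000 135 0 136)))))))
  (.B 546700 (.B 404200 (.B 347500 (.B 322200 (.X 2872200 (.B 310300 (.D 375 460000 891000 129 0
  130) (.D 378 460000 925000 129 0 130)) (.B 310300 (.D 371 520000 931000 135 0 136) (.D 374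
  520000 967000 135 0 136))) (.X 2872200 (.B 334800 (.D 380 480000 962000 129 0 130) (.D 383
  480000 998000 129 0 130)) (.B 334800 (.X 2935400 (.D 378 520000 983000 135 0 136) (.D 376
  560000 1004000 137 0 138)) (.X 2935400 (.D 381 520000 1020000 135 0 136) (.D 379 560000 1043000
  137 0 138))))) (.B 375800 (.X 2872200 (.B 361600 (.X 2810400 (.D 387 480000 1016000 129 0 130)
  (.D 385 500000 1039000 132 0 133)) (.X 2810400 (.D 390 480000 1056000 129 0 130) (.D 388 500000
  1079000 132 0 133))) (.B 361600 (.X 2935400 (.D 383 520000 1061000 135 0 136) (.D 381 560000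
  1085000 137 0 138)) (.X 2935400 (.D 385 520000 1103000 135 0 136) (.D 383 560000 1127000 137 0
  138)))) (.X 2872200 (.B 390000 (.X 2810400 (.D 392 480000 1096000 129 0 130) (.D 390 500000
  1120000 132 0 133)) (.X 2810400 (.D 395 480000 1136000 129 0 130) (.D 393 520000 1161000 132 0
  133))) (.B 390000 (.X 2935400 (.D 388 540000 1145000 135 0 136) (.D 386 560000 1170000 137 0
  138)) (.X 2935400 (.D 390 540000 1186000 135 0 136) (.D 388 560000 1213000 137 0 138)))))) (.B
  475400 (.B 439800 (.X 2872200 (.B 422000 (.X 2810400 (.D 396 500000 1186000 129 0 130) (.D 394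
  520000 1212000 132 0 133)) (.X 2810400 (.D 399 500000 1236000 129 0 130) (.D 397 520000 1263000
  132 0 133))) (.B 422000 (.X 2935400 (.D 392 540000 1239000 135 0 136) (.D 390 580000 1266000
  137 0 138)) (.X 2935400 (.D 395 540000 1291000 135 0 136) (.D 392 580000 1319000 137 0 138))))
  (.X 2872200 (.B 457600 (.D 400 500000 1314000 129 0 130) (.D 402 500000 1365000 129 0 130)) (.B
  457600 (.D 395 540000 1373000 135 0 136) (.D 398 540000 1426000 135 0 136)))) (.B 511000 (.X
  2872200 (.D 402 500000 1468000 129 0 130) (.D 397 540000 1533000 135 0 136)) (.D 402 500000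
  1623000 129 0 130)))) (.B 773300 (.B 660000 (.B 603300 (.D 403 500000 1645000 129 0 130) (.D
  409 500000 1693000 129 0 130)) (.M 408 408 1815000 129 0)) (.M 407 247 2127000 129 0)))))

theorem ch1 : chk 100 0 8 10 Th1 0 1000000 2750000 3000000 = true := by
  decide +kernel

end Pool.Agent.Lib.MP_172a45_an.F.H69.C
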