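import Pool.Agent.Lib.MP_172a45_an.F.H69.Def

set_option autoImplicit false
set_option maxRecDepth 100000

namespace Pool.Agent.Lib.MP_172a45_an.F.H69.C

/-- cells: N in [100, oo], deficit in [8, 10], t0 in [10, 12.5] -/
def Th10 : Tr :=
  .B 8000 (.X 11180300 (.B 4000 (.S 2652000 294 0) (.B 5600 (.D 30 940000 63000 294 0 295) (.D 39
  1240000 89000 294 0 295))) (.B 4000 (.B 2000 (.S 2587000 309 0) (.B 2800 (.B 2300 (.D 16 860000
  29000 309 0 310) (.D 18 980000 35000 309 0 310)) (.B 3300 (.D 22 1180000 41000 309 0 310) (.D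
  25 1360000 50000 309 0 310)))) (.B 5600 (.D 28 1520000 70000 309 0 310) (.D 36 1660000 100000
  309 0 310)))) (.B 89400 (.B 26700 (.B 14600 (.B 10800 (.D 49 1560000 135000 294 0 295) (.D 60
  1620000 183000 294 0 295)) (.B 19700 (.D 73 1620000 246000 294 0 295) (.B 22900 (.D 93 1620000
  286000 294 0 295) (.D 101 1620000 334000 294 0 295)))) (.B 48800 (.B 36000 (.B 31000 (.D 108
  1620000 388000 294 0 295) (.D 115 1620000 450000 294 0 295)) (.B 41900 (.D 122 1620000 524000
  294 0 295) (.D 129 1620000 610000 294 0 295))) (.B 66000 (.B 56700 (.X 11180300 (.D 145 1620000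
  634000 294 0 295) (.D 136 1660000 709000 309 0 310)) (.X 11180300 (.D 152 1620000 738000 294 0
  295) (.D 142 1660000 825000 309 0 310))) (.B 76800 (.X 11180300 (.D 159 1620000 859000 294 0
  295) (.D 148 1660000 960000 309 0 310)) (.X 11180300 (.D 165 1620000 1000000 294 0 295) (.D 154
  1660000 1118000 309 0 310)))))) (.B 298900 (.B 163400 (.B 120800 (.B 103900 (.X 11180300 (.D
  171 1620000 1162000 294 0 295) (.D 160 1660000 1279000 309 0 310)) (.D 165 1620000 1269000 294
  0 295)) (.B 140400 (.D 170 1620000 1296000 294 0 295) (.D 174 1620000 1404000 294 0 295))) (.B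
  220900 (.B 189900 (.D 179 1620000 1634000 294 0 295) (.D 183 1620000 1899000 294 0 295)) (.D
  169 1620000 2209000 294 0 295))) (.B 546700 (.D 137 1620000 2989000 294 0 295) (.D 153 1620000
  5467000 294 0 295))))

theorem ch10 : chk 100 0 8 10 Th10 0 1000000 10000000 12500000 = true := by
  decide +kernel

end Pool.Agent.Lib.MP_172a45_an.F.H69.C
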