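import Pool.Agent.Lib.MP_172a45_an.F.H69.Def

set_option autoImplicit false
set_option maxRecDepth 100000

namespace Pool.Agent.Lib.MP_172a45_an.F.H69.C

/-- cells: N in [100, oo], deficit in [8, 10], t0 in [4, 4.25] -/
def Th6 : Tr :=
  .B 8000 (.S 7015000 177 0) (.B 89400 (.B 26700 (.B 14600 (.D 66 200000 62000 177 0 178) (.D 101
  300000 113000 177 0 178)) (.B 48800 (.D 143 420000 207000 177 0 178) (.B 66000 (.D 200 600000
  281000 177 0 178) (.D 223 660000 380000 177 0 178)))) (.B 298900 (.B 163400 (.B 120800 (.D 244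
  740000 513000 177 0 178) (.B 140400 (.D 274 820000 597000 177 0 178) (.D 284 860000 694000 177
  0 178))) (.B 220900 (.B 189900 (.B 176100 (.D 299 900000 748000 177 0 178) (.D 304 920000
  807000 177 0 178)) (.B 204800 (.B 197200 (.D 311 940000 838000 177 0 178) (.D 313 940000 870000
  177 0 178)) (.B 212600 (.D 316 940000 904000 177 0 178) (.X 4123100 (.D 321 960000 911000 177 0
  178) (.D 318 1020000 939000 181 0 182))))) (.B 256900 (.B 238200 (.B 229300 (.X 4123100 (.D 323
  960000 945000 177 0 178) (.D 320 1020000 975000 181 0 182)) (.X 4123100 (.D 325 980000 982000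
  177 0 178) (.D 322 1040000 1012000 181 0 182))) (.B 247300 (.X 4123100 (.D 327 980000 1020000
  177 0 178) (.D 324 1040000 1051000 181 0 182)) (.X 4123100 (.B 252000 (.D 331 1000000 1039000
  177 0 178) (.D 332 1000000 1059000 177 0 178)) (.B 252000 (.D 328 1060000 1071000 181 0 182)
  (.D 329 1060000 1092000 181 0 182))))) (.B 277100 (.B 266800 (.X 4123100 (.B 261800 (.D 333
  1000000 1079000 177 0 178) (.D 334 1000000 1100000 177 0 178)) (.B 261800 (.D 330 1060000
  1113000 181 0 182) (.D 331 1060000 1134000 181 0 182))) (.X 4123100 (.B 271900 (.D 335 1000000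
  1121000 177 0 178) (.D 336 1000000 1143000 177 0 178)) (.B 271900 (.D 332 1060000 1156000 181 0
  182) (.D 333 1060000 1178000 181 0 182)))) (.B 287700 (.X 4123100 (.B 282300 (.D 337 1000000
  1164000 177 0 178) (.D 339 1020000 1186000 177 0 178)) (.B 282300 (.D 334 1060000 1200000 181 0
  182) (.D 335 1080000 1223000 181 0 182))) (.X 4123100 (.B 293200 (.D 340 1020000 1209000 177 0
  178) (.D 341 1020000 1232000 177 0 178)) (.B 293200 (.D 336 1080000 1246000 181 0 182) (.D 337
  1080000 1270000 181 0 182)))))))) (.B 546700 (.B 404200 (.B 347500 (.B 322200 (.B 310300 (.X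
  4123100 (.B 304500 (.D 342 1020000 1255000 177 0 178) (.D 343 1020000 1279000 177 0 178)) (.B
  304500 (.D 339 1080000 1294000 181 0 182) (.D 340 1080000 1319000 181 0 182))) (.X 4123100 (.B
  316200 (.D 344 1040000 1304000 177 0 178) (.D 345 1040000 1328000 177 0 178)) (.D 339 1080000
  1369000 181 0 182))) (.B 334800 (.X 4123100 (.B 328500 (.D 346 1040000 1354000 177 0 178) (.D
  347 1040000 1380000 177 0 178)) (.D 341 1100000 1423000 181 0 182)) (.X 4123100 (.D 346 1040000
  1433000 177 0 178) (.D 343 1100000 1477000 181 0 182)))) (.B 375800 (.B 361600 (.X 4123100 (.D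
  348 1040000 1491000 177 0 178) (.D 345 1100000 1537000 181 0 182)) (.X 4123100 (.D 350 1040000
  1549000 177 0 178) (.D 347 1120000 1597000 181 0 182))) (.B 390000 (.D 349 1040000 1599000 177
  0 178) (.D 351 1060000 1612000 177 0 178)))) (.B 475400 (.B 439800 (.B 422000 (.D 352 1060000
  1622000 177 0 178) (.D 354 1060000 1688000 177 0 178)) (.D 353 1060000 1759000 177 0 178)) (.D
  350 1040000 1902000 177 0 178))) (.B 773300 (.B 660000 (.D 352 1060000 2187000 177 0 178) (.D
  364 1100000 2640000 177 0 178)) (.D 360 1080000 3093000 177 0 178)))))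

theorem ch6 : chk 100 0 8 10 Th6 0 1000000 4000000 4250000 = true := by
  decide +kernel

end Pool.Agent.Lib.MP_172a45_an.F.H69.C
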