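import Pool.Agent.Lib.MP_172a45_an.F.H69.Def

set_option autoImplicit false
set_option maxRecDepth 100000

namespace Pool.Agent.Lib.MP_172a45_an.F.H69.C

/-- cells: N/t0 in [8, 8.5], y in [4.5, 6] -/
def U3_1 : Tt :=
  .B 5196100 (.B 4835500 (.T 176 800000 4500000 783000 0) (.T 178 820000 4836000 764000 0)) (.B
  5583600 (.T 179 820000 5196000 743000 0) (.T 180 820000 5584000 721000 0))

theorem d3_1 : chkT 8000000 8500000 U3_1 4500000 6000000 = true := by
  decide +kernel

/-- cells: N/t0 in [8.5, 9], y in [0, 6] -/
def U4_0 : Tt :=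
  .B 50000 (.S 2846000 997000 0) (.B 547700 (.B 165400 (.B 90900 (.B 67400 (.T 16 60000 67000
  997000 1038) (.T 21 80000 91000 996000 1096)) (.B 122600 (.T 28 120000 123000 995000 1035) (.T
  36 160000 165000 993000 1145))) (.B 300900 (.B 223000 (.T 45 200000 223000 991000 1528) (.T 56
  240000 301000 987000 1909)) (.B 405900 (.B 349400 (.T 73 300000 349000 985000 738) (.T 80
  340000 406000 983000 892)) (.B 471400 (.T 88 380000 471000 980000 998) (.T 95 400000 548000
  977000 1200))))) (.B 1812700 (.B 996400 (.B 738700 (.B 636000 (.T 102 440000 636000 974000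
  1558) (.T 109 460000 739000 970000 1891)) (.B 857900 (.T 116 500000 858000 965000 2326) (.B
  924500 (.T 128 540000 925000 962000 1620) (.T 132 560000 996000 959000 1718)))) (.B 1343900 (.B
  1157100 (.B 1073700 (.T 135 580000 1074000 956000 1863) (.T 139 580000 1157000 952000 1915))
  (.B 1247000 (.T 142 600000 1247000 948000 2085) (.T 145 620000 1344000 944000 2183))) (.B
  1560700 (.B 1448200 (.T 148 620000 1448000 940000 2224) (.T 151 640000 1561000 935000 2205))
  (.B 1681900 (.T 154 660000 1682000 930000 2124) (.T 157 660000 1808000 924000 1982))))) (.B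
  3297900 (.B 2445000 (.B 2105200 (.B 1953400 (.T 160 680000 1830000 918000 1797) (.T 162 680000
  1953000 911000 1713)) (.B 2268700 (.T 165 700000 2105000 904000 1540) (.T 167 700000 2269000
  896000 1359))) (.B 2839600 (.B 2634900 (.T 170 720000 2445000 888000 1094) (.T 172 720000
  2635000 879000 880)) (.B 3060100 (.T 174 740000 2840000 869000 710) (.T 176 740000 3060000
  858000 511)))) (.B 4448300 (.B 3830100 (.T 169 720000 3298000 832000 388) (.T 172 720000
  3830000 802000 0)) (.B 5166200 (.B 4793800 (.T 184 780000 4448000 785000 0) (.T 186 780000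
  4794000 765000 0)) (.B 5567500 (.T 187 800000 5166000 744000 0) (.T 188 800000 5568000 721000
  0)))))))

theorem d4_0 : chkT 8500000 9000000 U4_0 0 6000000 = true := by
  decide +kernel

end Pool.Agent.Lib.MP_172a45_an.F.H69.C
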